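import Mathlib

/-!
# Project PD4 (helper40): derivative of a determinant, winding numbers
-/

open MeasureTheory
open scoped ContDiff

namespace Pool.Agent.PD4

lemma der_prod {R : Type*} [CommRing R] [Algebra ℂ R] (D : R →ₗ[ℂ] R)
    (hD : ∀ a b, D (a * b) = D a * b + a * D b) {κ : Type*} [DecidableEq κ] (s : Finset κ)
    (f : κ → R) : D (∏ i ∈ s, f i) = ∑ i ∈ s, D (f i) * ∏ j ∈ s.erase i, f j := by
  induction s using Finset.induction_on with
  | empty =>
    have h : D 1 = 0 := by
      have := hD 1 1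
      simp only [mul_one, one_mul] at this
      exact left_eq_add.mp this
    simpa using h
  | insert a s ha ih =>
    rw [Finset.prod_insert ha, hD, ih, Finset.sum_insert ha, Finset.erase_insert ha,
      Finset.mul_sum]
    congr 1
    refine Finset.sum_congr rfl fun i hi => ?_
    have hne : a ≠ i := fun h => ha (h ▸ hi)
    rw [Finset.erase_insert_of_ne hne, Finset.prod_insert (by simp [ha])]
    ring

lemma der_det {R : Type*} [CommRing R] [Algebra ℂ R] (D : R →ₗ[ℂ] R)
    (hD : ∀ a b, D (a * b) = D a * b + a * D b) {ι : Type*} [Fintype ι] [DecidableEq ι]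
    (M : Matrix ι ι R) : D M.det = (M.adjugate * M.map D).trace := by
  have h1 : ∀ i, (M.updateCol i fun k => D (M k i)).det =
      ∑ σ : Equiv.Perm ι, Equiv.Perm.sign σ •
        (D (M (σ i) i) * ∏ j ∈ Finset.univ.erase i, M (σ j) j) := by
    intro i
    rw [Matrix.det_apply]
    refine Finset.sum_congr rfl fun σ _ => ?_
    congr 1
    rw [← Finset.mul_prod_erase Finset.univ _ (Finset.mem_univ i)]
    congr 1
    · simp
    · refine Finset.prod_congr rfl fun j hj => ?_
      rw [Matrix.updateCol_ne (Finset.ne_of_mem_erase hj)]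
  have h2 : (M.adjugate * M.map D).trace = ∑ i, (M.updateCol i fun k => D (M k i)).det := by
    rw [Matrix.trace]
    refine Finset.sum_congr rfl fun i _ => ?_
    rw [← Matrix.cramer_apply, Matrix.cramer_eq_adjugate_mulVec]
    rfl
  rw [h2, Matrix.det_apply, map_sum]
  simp only [h1]
  rw [Finset.sum_comm]
  refine Finset.sum_congr rfl fun σ _ => ?_
  rw [Units.smul_def, map_zsmul, der_prod D hD, Finset.smul_sum]
  rfl

lemma der_det_inv {R : Type*} [CommRing R] [Algebra ℂ R] (D : R →ₗ[ℂ] R)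
    (hD : ∀ a b, D (a * b) = D a * b + a * D b) {ι : Type*} [Fintype ι] [DecidableEq ι]
    (M M' : Matrix ι ι R) (h : M * M' = 1) :
    (M' * M.map D).trace = M'.det * D M.det := by
  have h' : M' * M = 1 := mul_eq_one_comm.mp h
  have h3 : M' = M'.det • M.adjugate := by
    calc M' = M' * (M * M.adjugate) * M'.det • (1 : Matrix ι ι R) := by
          rw [Matrix.mul_adjugate]
          have : M.det * M'.det = 1 := by rw [← Matrix.det_mul, h, Matrix.det_one]
          simp only [Matrix.mul_smul, Matrix.mul_one, smul_smul]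
          rw [mul_comm, this, one_smul]
      _ = M'.det • M.adjugate := by
          rw [← Matrix.mul_assoc M' M, h', Matrix.one_mul, Matrix.mul_smul, Matrix.mul_one]
  rw [der_det D hD]
  conv_lhs => rw [h3]
  rw [Matrix.smul_mul, Matrix.trace_smul, smul_eq_mul]

/-- winding number of a smooth nowhere vanishing periodic function -/
lemma winding (f : ℝ → ℂ) (hf : ContDiff ℝ ∞ f) (h0 : ∀ x, f x ≠ 0)
    (hp : f 1 = f 0) : ∃ z : ℤ, ∫ x in (0 : ℝ)..1, deriv f x / f x = z * (2 * Real.pi * Complex.I) := by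
  have hd : ∀ x, HasDerivAt f (deriv f x) x := fun x =>
    ((hf.differentiable (by simp)) x).hasDerivAt
  have hc : Continuous fun x => deriv f x / f x :=
    (hf.continuous_deriv (by simp)).div hf.continuous h0
  set I : ℝ → ℂ := fun x => ∫ t in (0 : ℝ)..x, deriv f t / f t with hI
  have hId : ∀ x, HasDerivAt I (deriv f x / f x) x := fun x =>
    intervalIntegral.integral_hasDerivAt_right (hc.intervalIntegrable _ _)
      (hc.stronglyMeasurableAtFilter _ _) hc.continuousAt
  have hg : ∀ x, HasDerivAt (fun x => f x * Complex.exp (- I x)) 0 x := by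
    intro x
    have h1 := (hd x).mul ((hId x).neg.cexp)
    have h2 : f x * (deriv f x / f x) = deriv f x := mul_div_cancel₀ _ (h0 x)
    have h3 : deriv f x * Complex.exp (-I x) +
        f x * (Complex.exp (-I x) * -(deriv f x / f x)) = 0 := by
      linear_combination (-Complex.exp (-I x)) * h2
    rw [← h3]
    exact h1
  have hconst := is_const_of_deriv_eq_zero (fun x => (hg x).differentiableAt)
    (fun x => (hg x).deriv) 1 0
  have hI0 : I 0 = 0 := by simp [hI]
  rw [hI0, neg_zero, Complex.exp_zero, mul_one, hp] at hconst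
  have h1 : Complex.exp (- I 1) = 1 := by
    have := h0 0
    exact mul_left_cancel₀ this (by rw [hconst, mul_one])
  have h2 : Complex.exp (I 1) = 1 := by
    rw [Complex.exp_neg, inv_eq_one] at h1
    exact h1
  obtain ⟨n, hn⟩ := Complex.exp_eq_one_iff.mp h2
  exact ⟨n, hn⟩

lemma int_of_approx (b : ℂ) (C : ℝ) (N₀ : ℕ)
    (h : ∀ N : ℕ, N₀ ≤ N → 0 < N → ∃ z : ℤ, ‖b - z‖ ≤ C / N) : ∃ z : ℤ, b = z := by
  have hC : Filter.Tendsto (fun N : ℕ => C / (N : ℝ)) Filter.atTop (nhds 0) :=
    tendsto_const_div_atTop_nhds_zero_nat C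
  have hev : ∀ᶠ N : ℕ in Filter.atTop, C / (N : ℝ) < 1 / 4 :=
    hC.eventually (gt_mem_nhds (by norm_num))
  obtain ⟨N₁, hN₁⟩ := Filter.eventually_atTop.mp hev
  set N₂ := max (max N₀ N₁) 1 with hN₂
  have key : ∀ N, N₂ ≤ N → ∃ z : ℤ, ‖b - z‖ ≤ C / N ∧ C / (N : ℝ) < 1 / 4 := by
    intro N hN
    have a1 : N₀ ≤ N := le_trans (le_trans (le_max_left _ _) (le_max_left _ _)) hN
    have a2 : N₁ ≤ N := le_trans (le_trans (le_max_right _ _) (le_max_left _ _)) hN
    have a3 : 0 < N := lt_of_lt_of_le one_pos (le_trans (le_max_right _ _) hN)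
    obtain ⟨z, hz⟩ := h N a1 a3
    exact ⟨z, hz, hN₁ N a2⟩
  obtain ⟨z, hz, hz'⟩ := key N₂ le_rfl
  refine ⟨z, ?_⟩
  have hle : ∀ᶠ N : ℕ in Filter.atTop, ‖b - z‖ ≤ C / (N : ℝ) := by
    filter_upwards [Filter.eventually_ge_atTop N₂] with N hN
    obtain ⟨w, hw, hw'⟩ := key N hN
    have h1 : ‖((z - w : ℤ) : ℂ)‖ < 1 := by
      have : ((z - w : ℤ) : ℂ) = (b - w) - (b - z) := by push_cast; ring
      rw [this]
      calc ‖(b - w) - (b - z)‖ ≤ ‖b - w‖ + ‖b - z‖ := norm_sub_le _ _
        _ < 1 := by linarith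
    rw [Complex.norm_intCast] at h1
    have h2 : |z - w| < 1 := by exact_mod_cast h1
    have h3 : z = w := by
      have := abs_lt.mp h2
      omega
    rw [h3]; exact hw
  have h0 : ‖b - z‖ ≤ 0 := ge_of_tendsto hC hle
  exact sub_eq_zero.mp (norm_le_zero_iff.mp h0)

end Pool.Agent.PD4
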